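import Pool.Agent.helper92.ISO.SpecG

set_option autoImplicit false

namespace Pool.Agent.ISO

/-- `1 / (t C(n,t))` -/
noncomputable def IDE_w (n t : ℕ) : ℝ := 1 / ((t : ℝ) * (n.choose t : ℝ))

theorem IDE_w_add (N t : ℕ) (h1 : 1 ≤ t) (h2 : t ≤ N) : IDE_w (N + 1) t + IDE_w (N + 1) (t + 1) = IDE_w N t := by
  have e1 : (N.choose t : ℝ) * (N + 1) = ((N + 1).choose t : ℝ) * ((N : ℝ) + 1 - t) := by
    have h := Nat.choose_mul_succ_eq N t
    have h' : ((N.choose t * (N + 1) : ℕ) : ℝ) = (((N + 1).choose t * (N + 1 - t) : ℕ) : ℝ) := by rw [h]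
    rw [Nat.cast_mul, Nat.cast_mul, Nat.cast_sub (by omega)] at h'
    push_cast at h'
    exact h'
  have e2 : ((N : ℝ) + 1) * (N.choose t : ℝ) = ((N + 1).choose (t + 1) : ℝ) * ((t : ℝ) + 1) := by
    exact_mod_cast Nat.add_one_mul_choose_eq N t
  have p0 : (0 : ℝ) < (N.choose t : ℝ) := by exact_mod_cast Nat.choose_pos h2
  have p1 : (0 : ℝ) < ((N + 1).choose t : ℝ) := by exact_mod_cast Nat.choose_pos (by omega : t ≤ N + 1)
  have p2 : (0 : ℝ) < ((N + 1).choose (t + 1) : ℝ) := by exact_mod_cast Nat.choose_pos (by omega : t + 1 ≤ N + 1)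
  have pt : (0 : ℝ) < (t : ℝ) := by exact_mod_cast h1
  have pN : (0 : ℝ) < (N : ℝ) + 1 := by positivity
  have q1 : (0 : ℝ) < (N : ℝ) + 1 - t := by
    have : (t : ℝ) ≤ N := by exact_mod_cast h2
    linarith
  have f1 : IDE_w (N + 1) t = ((N : ℝ) + 1 - t) / ((t : ℝ) * ((N : ℝ) + 1) * (N.choose t : ℝ)) := by
    unfold IDE_w
    rw [div_eq_div_iff (by positivity) (by positivity)]
    linear_combination (t : ℝ) * e1
  have f2 : IDE_w (N + 1) (t + 1) = 1 / (((N : ℝ) + 1) * (N.choose t : ℝ)) := by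
    unfold IDE_w
    rw [e2]
    push_cast
    rw [mul_comm ((t : ℝ) + 1)]
  rw [f1, f2]
  unfold IDE_w
  field_simp
  ring

theorem IDE_bin (A : ℕ) (f : ℕ → ℝ) : ∑ j ∈ Finset.range (A + 2), ((A + 1).choose j : ℝ) * f j =
    ∑ j ∈ Finset.range (A + 1), (A.choose j : ℝ) * (f j + f (j + 1)) := by
  rw [Finset.sum_range_succ']
  have h1 : ∀ j ∈ Finset.range (A + 1), ((A + 1).choose (j + 1) : ℝ) * f (j + 1) =
      (A.choose j : ℝ) * f (j + 1) + (A.choose (j + 1) : ℝ) * f (j + 1) := by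
    intro j _
    rw [Nat.choose_succ_succ]
    push_cast
    ring
  rw [Finset.sum_congr rfl h1, Finset.sum_add_distrib]
  have h2 : ∑ j ∈ Finset.range (A + 1), (A.choose (j + 1) : ℝ) * f (j + 1) + ((A + 1).choose 0 : ℝ) * f 0 =
      ∑ j ∈ Finset.range (A + 1), (A.choose j : ℝ) * f j := by
    have h3 := Finset.sum_range_succ' (fun j => (A.choose j : ℝ) * f j) (A + 1)
    rw [Finset.sum_range_succ] at h3
    simp only [Nat.choose_succ_self, Nat.cast_zero, zero_mul, add_zero, Nat.choose_zero_right, Nat.cast_one, one_mul] at h3 ⊢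
    rw [h3]
  rw [add_assoc, h2, ← Finset.sum_add_distrib]
  exact Finset.sum_congr rfl fun j _ => by ring

theorem IDE_sum (τ r A : ℕ) (h1 : 1 ≤ r) (h2 : r ≤ τ) :
    ∑ j ∈ Finset.range (A + 1), (A.choose j : ℝ) * IDE_w (τ + A) (r + j) = IDE_w τ r := by
  induction A with
  | zero => simp
  | succ A ih =>
    have h := IDE_bin A (fun j => IDE_w (τ + (A + 1)) (r + j))
    rw [show A + 1 + 1 = A + 2 from rfl, h, ← ih]
    refine Finset.sum_congr rfl fun j hj => ?_
    have hj' : j < A + 1 := Finset.mem_range.mp hj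
    have h3 := IDE_w_add (τ + A) (r + j) (by omega) (by omega)
    rw [← h3, ← add_assoc τ A 1, ← add_assoc r j 1]

theorem IDE_proof : IDE_stmt := by
  intro τ r A h1 h2
  have h := IDE_sum τ r A h1 h2
  have p : (0 : ℝ) < (τ.choose r : ℝ) := by exact_mod_cast Nat.choose_pos h2
  have pr : (0 : ℝ) < (r : ℝ) := by exact_mod_cast h1
  have e : ∀ j ∈ Finset.range (A + 1), ((τ.choose r : ℝ) * (A.choose j : ℝ)) / (((r + j : ℕ) : ℝ) * ((τ + A).choose (r + j) : ℝ)) =
      (τ.choose r : ℝ) * ((A.choose j : ℝ) * IDE_w (τ + A) (r + j)) := by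
    intro j _
    unfold IDE_w
    ring
  rw [Finset.sum_congr rfl e, ← Finset.mul_sum, h]
  unfold IDE_w
  field_simp

end Pool.Agent.ISO
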